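import Pool.Agent.H773.IE.SR

/-! `S_transfer` (MP_fb74c1_an): from the orthant to the simplex. -/

set_option autoImplicit false

open MeasureTheory Set Filter Topology
open scoped ENNReal

namespace Pool.Agent.H746.IE

open Pool.Agent.H773.IE

theorem t_transfer : S_transfer := by
  intro m P hP hae
  set P' : (Fin (m + 1) → ℝ) → Prop := fun lam => (∀ i, 0 < lam i) → P lam with hP'
  -- product coordinates
  have h0 : ∀ᵐ z : ℝ × (Fin m → ℝ), P' (Fin.snoc (α := fun _ => ℝ) z.2 z.1) := by
    have h := ((volume_preserving_piFinSuccAbove (fun _ : Fin (m + 1) => ℝ)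
      (Fin.last m)).symm _).quasiMeasurePreserving.ae hae
    filter_upwards [h] with z hz
    have e1 : (MeasurableEquiv.piFinSuccAbove (fun _ : Fin (m + 1) => ℝ) (Fin.last m)).symm z =
        Fin.snoc (α := fun _ => ℝ) z.2 z.1 := by
      show (Fin.last m).insertNth (α := fun _ => ℝ) z.1 z.2 = _
      exact Fin.insertNth_last' z.1 z.2
    rw [e1] at hz
    exact hz
  -- the shear
  have hT : MeasurePreserving (fun z : (Fin m → ℝ) × ℝ => (z.1, z.2 - ∑ i, z.1 i))
      ((volume : Measure (Fin m → ℝ)).prod (volume : Measure ℝ))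
      ((volume : Measure (Fin m → ℝ)).prod (volume : Measure ℝ)) := by
    refine MeasurePreserving.skew_product (MeasurePreserving.id volume)
      (g := fun (y : Fin m → ℝ) (S : ℝ) => S - ∑ i, y i) ?_ ?_
    · refine Measurable.sub measurable_snd ?_
      exact Finset.measurable_sum _ fun i _ => (measurable_pi_apply i).comp measurable_fst
    · exact Filter.Eventually.of_forall fun y => map_sub_right_eq_self volume _
  have hS : MeasurePreserving (fun z : ℝ × (Fin m → ℝ) => (z.1 - ∑ i, z.2 i, z.2))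
      ((volume : Measure ℝ).prod (volume : Measure (Fin m → ℝ)))
      ((volume : Measure ℝ).prod (volume : Measure (Fin m → ℝ))) := by
    have h1 : MeasurePreserving Prod.swap
      ((volume : Measure ℝ).prod (volume : Measure (Fin m → ℝ)))
      ((volume : Measure (Fin m → ℝ)).prod (volume : Measure ℝ)) := Measure.measurePreserving_swap
    have h2 : MeasurePreserving Prod.swap
      ((volume : Measure (Fin m → ℝ)).prod (volume : Measure ℝ))
      ((volume : Measure ℝ).prod (volume : Measure (Fin m → ℝ))) := Measure.measurePreserving_swap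
    exact h2.comp (hT.comp h1)
  have h2 : ∀ᵐ z ∂((volume : Measure ℝ).prod (volume : Measure (Fin m → ℝ))),
      P' (Fin.snoc (α := fun _ => ℝ) z.2 (z.1 - ∑ i, z.2 i)) :=
    hS.quasiMeasurePreserving.ae h0
  have h3 := Measure.ae_ae_of_ae_prod h2
  -- a good value of the sum
  obtain ⟨S, hS0, hSg⟩ : ∃ S : ℝ, 0 < S ∧
      ∀ᵐ y : Fin m → ℝ, P' (Fin.snoc (α := fun _ => ℝ) y (S - ∑ i, y i)) := by
    by_contra hcon
    push Not at hcon
    have hle : (volume : Measure ℝ) (Ioi 0) ≤ (volume : Measure ℝ)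
        {S | ¬ ∀ᵐ y : Fin m → ℝ, P' (Fin.snoc (α := fun _ => ℝ) y (S - ∑ i, y i))} :=
      measure_mono fun S hS => Filter.not_eventually.mpr (hcon S hS)
    rw [ae_iff.mp h3, Real.volume_Ioi] at hle
    exact absurd hle (by simp)
  -- scaling
  have hq : Measure.QuasiMeasurePreserving (fun x : Fin m → ℝ => S • x)
      (volume : Measure (Fin m → ℝ)) (volume : Measure (Fin m → ℝ)) := by
    refine ⟨measurable_const_smul S, ?_⟩
    rw [Measure.map_addHaar_smul volume hS0.ne']
    exact Measure.smul_absolutelyContinuous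
  filter_upwards [hq.ae hSg] with x hx hx0 hx1
  have e1 : (Fin.snoc (α := fun _ => ℝ) (S • x) (S - ∑ i, (S • x) i) : Fin (m + 1) → ℝ) =
      fun i => S * (Fin.snoc (α := fun _ => ℝ) x (1 - ∑ i, x i) : Fin (m + 1) → ℝ) i := by
    funext i
    refine Fin.lastCases ?_ (fun j => ?_) i
    · rw [Fin.snoc_last, Fin.snoc_last]
      simp only [Pi.smul_apply, smul_eq_mul]
      rw [← Finset.mul_sum]
      ring
    · rw [Fin.snoc_castSucc, Fin.snoc_castSucc]
      rfl
  have hpos : ∀ i, 0 < (Fin.snoc (α := fun _ => ℝ) x (1 - ∑ i, x i) : Fin (m + 1) → ℝ) i := by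
    intro i
    refine Fin.lastCases ?_ (fun j => ?_) i
    · rw [Fin.snoc_last]; linarith
    · rw [Fin.snoc_castSucc]; exact hx0 j
  rw [e1] at hx
  have h5 := hP S⁻¹ (inv_pos.mpr hS0) _ (fun i => mul_pos hS0 (hpos i))
    (hx fun i => mul_pos hS0 (hpos i))
  have e2 : (fun i => S⁻¹ * (S * (Fin.snoc (α := fun _ => ℝ) x (1 - ∑ i, x i) : Fin (m + 1) → ℝ) i)) =
      (Fin.snoc (α := fun _ => ℝ) x (1 - ∑ i, x i) : Fin (m + 1) → ℝ) := by
    funext i
    rw [inv_mul_cancel_left₀ hS0.ne']
  rw [e2] at h5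
  exact h5

end Pool.Agent.H746.IE
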